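import Pool.Agent.Y874.StB.Core

/-!
# Stallings' conjecture `B_n(p)` is false for every prime `p` and every `n ≥ 8`

A single subgroup works for all primes and all `n ≥ 8` at once, in every free group of rank `≥ 2`.
-/

set_option autoImplicit false
open scoped TensorProduct

namespace Pool.Agent.Results.MP_e9d015_al.AllPrimesAllLargeN

open Pool.Agent.Y874.StB

/-- the map `H_1(S; M) → H_1(G; M)` induced by the inclusion of the subgroup `S` is bijective -/
def HOneIso {G : Type} [Group G] (S : Subgroup G) (M : Type) [AddCommGroup M] : Prop :=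
  Function.Bijective (LinearMap.rTensor M
    (AddMonoidHom.toIntLinearMap (MonoidHom.toAdditive (Abelianization.map S.subtype))))

/-- `a` is a product of `G`-conjugates of `g_1, …, g_n` -/
def DependentOn {G : Type} [Group G] {n : ℕ} (a : G) (g : Fin n → G) : Prop :=
  ∃ c : Fin n → G, a = (List.ofFn fun i => c i * g i * (c i)⁻¹).prod

/-- the assertion `B_n(p)` for the free group of rank `k` -/
def StallingsB (k n p : ℕ) : Prop :=
  ∀ S : Subgroup (FreeGroup (Fin k)), HOneIso S (ZMod p) →
    ∀ (a : S) (g : Fin n → S),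
      DependentOn (a : FreeGroup (Fin k)) (fun i => (g i : FreeGroup (Fin k))) → DependentOn a g

/-- the subgroup `⟨x_1, x_2 x_1⁻¹ x_2⁻², x_3, …, x_k⟩` of the free group of rank `k = m + 2` -/
def Sub (m : ℕ) : Subgroup (FreeGroup (Fin (m + 2))) :=
  Subgroup.closure (Set.range (Function.update FreeGroup.of 1
    (FreeGroup.of 1 * (FreeGroup.of 0)⁻¹ * (FreeGroup.of 1)⁻¹ * (FreeGroup.of 1)⁻¹)))

theorem comm_of_le_one {k : ℕ} (hk : k ≤ 1) (x y : FreeGroup (Fin k)) : x * y = y * x := by
  have : k = 0 ∨ k = 1 := by omega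
  rcases this with rfl | rfl
  · exact Subsingleton.elim _ _
  · apply (FreeGroup.mulEquivIntOfUnique (α := Fin 1)).injective
    rw [map_mul, map_mul, mul_comm]

/-- In the free group of rank `k = m + 2` the subgroup `⟨x_1, x_2 x_1⁻¹ x_2⁻², x_3, …, x_k⟩` induces
an isomorphism on `H_1` with all coefficients, and for every `n ≥ 8` it contains elements
`a, g_1, …, g_n` with `a` dependent on `(g_1, …, g_n)` in the free group and not in the subgroup.
Hence for every prime `p` and every `n ≥ 8` the assertion `B_n(p)` fails in every free group of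
rank at least two. -/
theorem result :
    (∀ m : ℕ, (∀ (M : Type) [AddCommGroup M], HOneIso (Sub m) M) ∧
      ∀ n : ℕ, 8 ≤ n → ∃ (a : Sub m) (g : Fin n → Sub m),
        DependentOn (a : FreeGroup (Fin (m + 2))) (fun i => (g i : FreeGroup (Fin (m + 2)))) ∧
          ¬ DependentOn a g) ∧
    (∀ p k n : ℕ, p.Prime → 8 ≤ n → (StallingsB k n p ↔ k ≤ 1)) := by
  have h1 : ∀ m : ℕ, (∀ (M : Type) [AddCommGroup M], HOneIso (Sub m) M) ∧
      ∀ n : ℕ, 8 ≤ n → ∃ (a : Sub m) (g : Fin n → Sub m),
        DependentOn (a : FreeGroup (Fin (m + 2))) (fun i => (g i : FreeGroup (Fin (m + 2)))) ∧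
          ¬ DependentOn a g := by
    intro m
    exact ⟨fun M _ => bij m M, fun n hn => main m n hn⟩
  refine ⟨h1, ?_⟩
  intro p k n hp hn
  constructor
  · intro H
    by_contra hk
    obtain ⟨m, rfl⟩ : ∃ m, k = m + 2 := ⟨k - 2, by omega⟩
    obtain ⟨hb, hm⟩ := h1 m
    obtain ⟨a, g, hF, hS⟩ := hm n hn
    exact hS (H (Sub m) (hb (ZMod p)) a g hF)
  · intro hk S _ a g hF
    obtain ⟨c, hc⟩ := hF
    refine ⟨fun _ => 1, ?_⟩
    apply Subtype.val_injective
    rw [hc]
    have : ((List.ofFn fun i => (1 : S) * g i * (1 : S)⁻¹).prod : S) =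
        (List.ofFn g).prod := by simp
    show _ = (((List.ofFn fun i => (1 : S) * g i * (1 : S)⁻¹).prod : S) : FreeGroup (Fin k))
    rw [this]
    have e2 : (((List.ofFn g).prod : S) : FreeGroup (Fin k)) =
        (List.ofFn fun i => (g i : FreeGroup (Fin k))).prod := by
      show S.subtype (List.ofFn g).prod = _
      rw [map_list_prod, List.map_ofFn]
      rfl
    rw [e2]
    congr 2
    funext i
    rw [comm_of_le_one hk (c i) _, mul_inv_cancel_right]

end Pool.Agent.Results.MP_e9d015_al.AllPrimesAllLargeN
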