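import Pool.Agent.Y874.StB.Nil

/-!
# Dependence in free groups is not detected by nilpotent groups

For every `n ≥ 8` a product of `n` conjugacy classes of a free group of rank at least two need not be
closed in the pro-nilpotent topology.
-/

set_option autoImplicit false

namespace Pool.Agent.Results.MP_e9d015_al.NilpotentImages

open Pool.Agent.Y874.StB

/-- `a` is a product of `G`-conjugates of `g_1, …, g_n` -/
def DependentOn {G : Type} [Group G] {n : ℕ} (a : G) (g : Fin n → G) : Prop :=
  ∃ c : Fin n → G, a = (List.ofFn fun i => c i * g i * (c i)⁻¹).prod

/-- For `n ≥ 8` the free group of every rank `m + 2` contains `a, g_1, …, g_n` such that `a` is not a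
product of conjugates of `g_1, …, g_n`, although its image under every homomorphism to a nilpotent
group is a product of conjugates of the images of `g_1, …, g_n`. -/
theorem result (m n : ℕ) (hn : 8 ≤ n) :
    ∃ (a : FreeGroup (Fin (m + 2))) (g : Fin n → FreeGroup (Fin (m + 2))),
      ¬ DependentOn a g ∧
        ∀ (N : Type) [Group N] [Group.IsNilpotent N] (f : FreeGroup (Fin (m + 2)) →* N),
          DependentOn (f a) (fun i => f (g i)) :=
  nil_main m n hn

end Pool.Agent.Results.MP_e9d015_al.NilpotentImages
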